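import Pool.Agent.W217.BE.Stm2

set_option autoImplicit false

namespace Pool.Agent.W20.BEINTCAR

open Pool.Agent.W217.BE

theorem main : INTCAR := by
  intro A C I _ _ _ M _ _ _ D E h hD
  let e : ∀ i, D i ≃+ E i := fun i =>
    { toFun := fun x => ⟨x.1, (h i x.1).1 x.2⟩
      invFun := fun x => ⟨x.1, (h i x.1).2 x.2⟩
      left_inv := fun x => rfl
      right_inv := fun x => rfl
      map_add' := fun x y => rfl }
  let f : (DirectSum I fun i => D i) ≃+ (DirectSum I fun i => E i) :=
    DFinsupp.mapRange.addEquiv e
  have hc : (DirectSum.coeAddMonoidHom E).comp f.toAddMonoidHom =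
      DirectSum.coeAddMonoidHom D := by
    refine DirectSum.addHom_ext fun i y => ?_
    have h1 : f (DirectSum.of (fun i => D i) i y) = DirectSum.of (fun i => E i) i (e i y) :=
      DFinsupp.mapRange_single (hf := fun i => (e i).map_zero)
    simp only [AddMonoidHom.comp_apply, AddEquiv.coe_toAddMonoidHom, h1,
      DirectSum.coeAddMonoidHom_of]
    rfl
  have h2 : Function.Bijective ((DirectSum.coeAddMonoidHom E) ∘ f) := by
    have h3 : Function.Bijective (DirectSum.coeAddMonoidHom D) := hD
    rw [← hc] at h3
    exact h3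
  exact (Function.Bijective.of_comp_iff _ f.bijective).1 h2

end Pool.Agent.W20.BEINTCAR
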